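import Pool.Agent.TH756.AR.Fin

/-!
# Abundance for covers of projective space over an arrangement

Let `ℓ i = 0` be `q` hyperplanes in projective `n`-space, an arbitrary arrangement, but not `n + 2`
hyperplanes in general position, and let `X` be an abelian cover of projective space which is
branched over the arrangement, or any variety with a generically finite map to projective space,
such that at every prime divisor over `X` whose centre lies on the arrangement some hyperplane has
multiplicity at least `n + 2`. The bound does not depend on the number of hyperplanes.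

The function-field language of the starting repository is used: prime divisors over `X` are the
divisorial places `P` of the function field `K` of `X` (`Divisorial`), `P.ord` is the order along
`P`; `Psef ℂ K n (fun _ => False)` says that the canonical bundle of a resolution of `X` is
pseudo-effective, `GeneralType ℂ K n` that `X` is of general type, and `Ruled ℂ K` that `X` is
birational to `B × ℙ¹` for some `B` (`Pool/Agent/W602/GT`). `Cover`, `Cover.Free`,
`Cover.FunctionField`, `Reducible` are in `Pool/Agent/W602/Cov`.
-/

set_option autoImplicit false

open FF Module Pool.Agent.W602.Cov Pool.Agent.W602.GT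

namespace Pool.Agent.Results.MP_5ff3c6_ag.ArrangementCoverAbundance

/-- In suitable linear coordinates `X 0, ..., X n` each of the hyperplanes is one of `X j = 0` or
`X 0 + ... + X n = 0`. The arrangements with this property which are not reducible are, up to
repetitions, the arrangements of `n + 2` hyperplanes in general position. -/
def Simplicial {n q : ℕ} (ℓ : Fin q → Form n) : Prop :=
  ∃ X : Basis (Fin (n + 1)) ℂ (Form n), ∀ i,
    (∃ c : ℂ, ℓ i = c • ∑ j, X j) ∨ ∃ (j : Fin (n + 1)) (c : ℂ), ℓ i = c • X j

/-- The value of a linear form at a vector over `K`. -/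
noncomputable def form {n : ℕ} {K : Type} [Field K] [Algebra ℂ K] (φ : Form n)
    (x : Fin (n + 1) → K) : K := ∑ j, algebraMap ℂ K (φ (Pi.single j 1)) * x j

/-- The multiplicities of the cover `X` are at least `m`: whenever a germ of a curve in projective
space through a point of the arrangement meets the hyperplane `ℓ i = 0` with multiplicity `v i`, and
these multiplicities are compatible with the equations `y k ^ m k = ∏ i, ℓ i (x) ^ e k i` of `X`, at
least one of them is at least `m`. -/
def Multiplicities {n q r : ℕ} (X : Cover n q r) (m : ℕ) : Prop :=
  ∀ v : Fin q → ℕ, v ≠ 0 → (∃ x : Fin (n + 1) → ℂ, x ≠ 0 ∧ ∀ i, v i ≠ 0 → X.ℓ i x = 0) →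
    (∀ k, X.m k ∣ ∑ i, X.e k i * v i) → ∃ i, m ≤ v i

/-- The multiplicities over the arrangement of a variety of dimension `n` with function field `K`
and a generically finite rational map `[x 0 : ... : x n]` to projective space are at least `m`:
at every prime divisor `P` the hyperplane `i` has the order `a + v i`, where the minimum of the
orders of all linear forms is `a`, and if some `v i` is not `0` then some `v i` is at least `m`. -/
def MultiplicitiesOver {n q : ℕ} (ℓ : Fin q → Form n) {K : Type} [Field K] [Algebra ℂ K]
    (x : Fin (n + 1) → K) (m : ℕ) : Prop :=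
  ∀ P : Place ℂ K, Divisorial n P → ∀ (a : ℤ) (v : Fin q → ℕ),
    (∀ φ : Form n, form φ x = 0 ∨ a ≤ P.ord (form φ x)) →
    (∃ φ : Form n, form φ x ≠ 0 ∧ P.ord (form φ x) = a) →
    (∀ i, P.ord (form (ℓ i) x) = a + v i) → v ≠ 0 → ∃ i, m ≤ v i

/-- **(1)** Abelian covers `X` of projective `n`-space over an arbitrary arrangement, except for
`n + 2` hyperplanes in general position, with multiplicities at least `n + 2`: the canonical bundle
of `X` is pseudo-effective if and only if `X` is of general type, if and only if `X` is not ruled,
if and only if the arrangement is not reducible.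
**(2)** Arbitrary varieties `V` of dimension `n` with a generically finite map to projective space,
over an arrangement which is not reducible and not `n + 2` hyperplanes in general position: if the
multiplicities are at least `n + 2` then `V` is of general type. -/
theorem result (n q : ℕ) (hn : 1 ≤ n) :
    (∀ (r : ℕ) (X : Cover n q r), X.Free → Reducible X.ℓ ∨ ¬ Simplicial X.ℓ →
      Multiplicities X (n + 2) → ∀ (K : Type) [Field K] [Algebra ℂ K]
      (x : Fin (n + 1) → K) (y : Fin r → K), X.FunctionField K x y →
        [Psef ℂ K n (fun _ => False), GeneralType ℂ K n, ¬ Ruled ℂ K, ¬ Reducible X.ℓ].TFAE) ∧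
    (∀ ℓ : Fin q → Form n, (∀ i, ℓ i ≠ 0) → ¬ Reducible ℓ → ¬ Simplicial ℓ →
      ∀ (K : Type) [Field K] [Algebra ℂ K] (x : Fin (n + 1) → K), x 0 ≠ 0 →
      IsTranscendenceBasis ℂ (fun j : Fin n => x j.succ / x 0) →
      MultiplicitiesOver ℓ x (n + 2) → GeneralType ℂ K n) :=
  ⟨fun _ X hF hS h _ _ _ _ _ hK => Pool.Agent.TH756.AR.tfae3 hn X hF hK hS h,
    fun _ hℓ hr hS _ _ _ _ hx0 hbas h =>
      Pool.Agent.TH756.AR.over_general2 hn hℓ hr hS hx0 hbas h⟩

end Pool.Agent.Results.MP_5ff3c6_ag.ArrangementCoverAbundance
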