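import Pool.Agent.TH466.QG.Top

/-!
# Varieties which are dominated by covers of subvarieties of systems of high powers

Let `Y` be the projective variety given by sums of at most `s` powers of linear forms, or by forms
with at most `s` monomials and divisible exponents, all exponents being at least `N`. We consider
varieties `X` of dimension `w ≥ 1` with a generically finite dominant rational map `X' ⇢ X` of
degree at most `r`, where `X'` has a generically finite rational map to `Y`: the image `W` of `X'`
is an arbitrary subvariety of `Y`, the degree of `X' ⇢ W` is arbitrary, and no assumption is made on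
the branch loci. If `N ≥ r w (s + 4) (s - 1) (s - 2) / 2`, and no rational curve which lies in `Y`
passes through the generic point of `W`, then `X` is of general type.

The function-field language of the starting repository is used: `K'` and `L` are the function fields
of `X'` and `X`, `y` are the homogeneous coordinates in `K'` of the map `X' ⇢ Y`; `coords k y` is
the function field of its image, generated by the ratios of the coordinates; `GeneralType L`: `X` is
of general type, `Psef L`: the canonical bundle of a resolution of `X` is pseudo-effective
(`Pool/Agent/W602/GT`).
-/

set_option autoImplicit false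

namespace Pool.Agent.Results.MP_5ff3c6_ag.DominatedMinimal

open Pool.Agent.W602.GT

/-- Through the point `y` over `K` of the variety `F = 0` passes a rational curve over `K` which
lies in `F = 0`: there are polynomials `P 0, ..., P n` in one variable over `K` with `P(1) = y`,
which are not proportional to `y`, and satisfy `F(P) = 0`. -/
def RationalCurveThrough {k : Type} [Field k] {n : ℕ} {ι : Type}
    (F : ι → MvPolynomial (Fin (n + 1)) k) {K : Type} [Field K] [Algebra k K]
    (y : Fin (n + 1) → K) : Prop :=
  ∃ P : Fin (n + 1) → Polynomial K, (∀ i, (P i).eval 1 = y i) ∧
    (∃ i j, P i * Polynomial.C (y j) ≠ P j * Polynomial.C (y i)) ∧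
    ∀ e, MvPolynomial.aeval P (F e) = 0

/-- Let `X' ⇢ Y = {F = 0}` be a rational map which is generically finite onto its image, and
`X' ⇢ X` a dominant rational map of degree at most `r`, `dim X = w ≥ 1`, where the forms `F` are
sums of at most `s` powers of linear forms, or have at most `s` monomials and divisible exponents,
and all exponents are at least `N ≥ r w (s + 4) (s - 1) (s - 2) / 2`. If no rational curve in `Y`
passes through the image of the generic point of `X'`, then the canonical bundle of `X` is
pseudo-effective and `X` is of general type. -/
theorem result {k : Type} [Field k] [IsAlgClosed k] [CharZero k] {n : ℕ} {ι : Type}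
    {F : ι → MvPolynomial (Fin (n + 1)) k} {s N : ℕ} (hF : HighPowers s N F) (hN1 : 1 ≤ N)
    {K' L : Type} [Field K'] [Field L] [Algebra k K'] [Algebra k L] [Algebra L K']
    [IsScalarTower k L K'] [FiniteDimensional L K'] {w r : ℕ} (hw : 1 ≤ w)
    (hdim : Algebra.trdeg k K' = w) (hr : Module.finrank L K' ≤ r)
    {y : Fin (n + 1) → K'} (hy : y ≠ 0) (hyF : ∀ e, val y (F e) = 0)
    (hgen : Algebra.IsAlgebraic (coords k y) K')
    (hN : r * (w * ((s + 4) * ((s - 1) * (s - 2) / 2))) ≤ N)
    (hcurve : ¬ RationalCurveThrough F y) :
    Psef k L w (fun _ => False) ∧ GeneralType k L w := by
  rcases Pool.Agent.TH466.QG.curve_or_general hF hN1 hw hdim hy hyF hgen hr hN with h | h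
  · exact absurd h hcurve
  · exact ⟨psef_of_kodGe (kod_of_general h), h⟩

end Pool.Agent.Results.MP_5ff3c6_ag.DominatedMinimal
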