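import Mathlib
import Pool.Agent.TH710.ND.Proj
import Pool.Agent.TH710.ND.Sp

/-!
MP_5ff3c6_ag, Q1: minimal models of the components of projective varieties given by nested sums of
high powers of linear forms, or of monomials.
-/

set_option autoImplicit false

namespace Pool.Agent.Results.MP_5ff3c6_ag.NestedMinimal

open FF MvPolynomial Pool.Agent.W602.GT
open Pool.Agent.TH710.ND (HighTowers)

/-- Let `V` be an irreducible component of a projective variety given by forms which are nested
sums of high powers of linear forms, or nested sums of high powers of monomials: at each of at most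
`h + 1` levels there are at most `s` summands, and the exponents are at least
`(n + 1) (h + 1) (2 s + 1) ^ 5`. Either the canonical divisor of a resolution of `V` is
pseudo-effective and `V` is of general type, or it is not pseudo-effective and `V` is birational to
`B × ℙ¹` for some `B`. In particular the canonical divisor of a minimal variety which is birational
to such a `V` is big. -/
theorem result {n : ℕ} {ι : Type} {F : ι → MvPolynomial (Fin (n + 1)) ℂ} {s N h : ℕ}
    (hF : HighTowers s N h F) (hN : (n + 1) * ((h + 1) * (2 * s + 1) ^ 5) ≤ N)
    {K : Type} [Field K] [Algebra ℂ K] {w : ℕ} {y : Fin (n + 1) → K}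
    (hy : SubVar F K w y) (hcomp : IsComponent F y) :
    (Psef ℂ K w (fun _ => False) ∧ GeneralType ℂ K w) ∨
      (¬ Psef ℂ K w (fun _ => False) ∧ Ruled ℂ K) :=
  Pool.Agent.TH710.ND.general_psef_or_ruled hF (Pool.Agent.TH710.ND.bnd_le hN).1 hy hcomp

end Pool.Agent.Results.MP_5ff3c6_ag.NestedMinimal
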