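import Pool.Agent.TH116.PT.Powers

/-!
# Abundance for minimal varieties: sublinear defects near general type are enough
-/

universe u

namespace Pool.Agent.Results.MP_5ff3c6_ag.SublinearDefect

open Pool.Agent.TH116.PT

/-- Minimal varieties, their products, Kodaira dimensions (`⊥` is `-∞`), numerical dimensions and
dimensions. -/
structure MinimalVarieties where
  /-- the minimal varieties -/
  Obj : Type u
  /-- the Kodaira dimension -/
  κ : Obj → WithBot ℕ
  /-- the numerical dimension of the canonical divisor -/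
  ν : Obj → ℕ
  /-- the dimension -/
  dim : Obj → ℕ
  ν_le : ∀ X, ν X ≤ dim X
  κ_le : ∀ X, κ X ≤ (ν X : WithBot ℕ)
  /-- a multiple `r K_X`, `r > 0`, is Cartier and base point free -/
  Semiample : Obj → Prop
  /-- Kawamata -/
  semiample_iff : ∀ X, Semiample X ↔ κ X = (ν X : WithBot ℕ)
  /-- the product of two minimal varieties -/
  mul : Obj → Obj → Obj
  κ_mul : ∀ X Y, κ (mul X Y) = κ X + κ Y
  ν_mul : ∀ X Y, ν (mul X Y) = ν X + ν Y
  dim_mul : ∀ X Y, dim (mul X Y) = dim X + dim Y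
  /-- a smooth projective curve of genus two -/
  curve : Obj
  κ_curve : κ curve = ((1 : ℕ) : WithBot ℕ)
  ν_curve : ν curve = 1
  dim_curve : dim curve = 1

variable (T : MinimalVarieties.{u})

/-- The minimal varieties with expected Kodaira dimension `ν`. -/
def defect : DefectTheory.{u} where
  F := T.Obj
  κ := T.κ
  e X := (T.ν X : WithBot ℕ)
  dim := T.dim
  e_le X := Nat.cast_le.2 (T.ν_le X)
  pow := powOf T.mul
  κ_pow := powOf_additive T.mul T.κ_mul
  e_pow X n := by rw [powOf_nat' T.mul T.ν_mul, nsmul_coe]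
  dim_pow X n := powOf_nat' T.mul T.dim_mul X n
  u := 1
  one_le_u := le_rfl
  tw := twOf T.mul T.curve
  κ_tw X m := twOf_nat T.mul T.κ_mul T.curve X 1 T.κ_curve m
  e_tw X m := by rw [twOf_nat' T.mul T.ν_mul T.curve X 1 T.ν_curve m, ← Nat.cast_add]
  dim_tw X m := twOf_nat' T.mul T.dim_mul T.curve X 1 T.dim_curve m

/-- Abundance for all minimal varieties, versus: `κ ≥ ν - ε (dim - ν) - C` for the minimal varieties
with `ν ≥ (1 - η) dim`. -/
theorem result (η : ℝ) (hη : 0 < η) :
    (∀ X, T.Semiample X) ↔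
      ∀ ε : ℝ, 0 < ε → ∃ C : ℝ, ∀ X : T.Obj, (1 - η) * T.dim X ≤ T.ν X →
        ε * (T.dim X - T.ν X) + C < T.ν X →
        ∃ c : ℕ, T.κ X = (c : WithBot ℕ) ∧
          (T.ν X : ℝ) - (ε * (T.dim X - T.ν X) + C) ≤ c := by
  have h0 : (∀ X, T.Semiample X) ↔ ∀ X, (T.ν X : WithBot ℕ) ≤ T.κ X := by
    constructor
    · intro h X
      exact ((T.semiample_iff X).1 (h X)).ge
    · intro h X
      exact (T.semiample_iff X).2 (le_antisymm (T.κ_le X) (h X))
  have key := (defect T).iff_eventually (fun X => (1 - η) * T.dim X ≤ T.ν X) (by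
    intro X _
    obtain ⟨M, hM⟩ := eventually_near η hη (T.ν X) (T.dim X) 1 le_rfl
    refine ⟨M, fun m hm => ?_⟩
    show (1 - η) * ((T.dim (twOf T.mul T.curve X m) : ℕ) : ℝ) ≤
      ((T.ν (twOf T.mul T.curve X m) : ℕ) : ℝ)
    rw [twOf_nat' T.mul T.dim_mul T.curve X 1 T.dim_curve m,
      twOf_nat' T.mul T.ν_mul T.curve X 1 T.ν_curve m]
    exact hM m hm)
  rw [h0]
  refine Iff.trans key ?_
  constructor
  · intro h ε hε
    obtain ⟨C, hC⟩ := h ε hε
    exact ⟨C, fun X h1 hlt => hC X _ rfl h1 _ rfl hlt⟩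
  · intro h ε hε
    obtain ⟨C, hC⟩ := h ε hε
    refine ⟨C, fun X a ha hN a' ha' hlt => ?_⟩
    have he : a = T.ν X := by
      have : ((T.ν X : ℕ) : WithBot ℕ) = (a : WithBot ℕ) := ha
      exact_mod_cast this.symm
    have he' : a' = T.ν X := by
      have : ((T.ν X : ℕ) : WithBot ℕ) = (a' : WithBot ℕ) := ha'
      exact_mod_cast this.symm
    subst he
    subst he'
    exact hC X hN hlt

end Pool.Agent.Results.MP_5ff3c6_ag.SublinearDefect
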